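import Pool.Agent.H482R3.EA.Stm

set_option autoImplicit false

namespace Pool.Agent.H894R2.EA

open Pool.Agent.H482R3.EA in
theorem t_SPL : S_SPL := by
  classical
  intro n U hU hUc
  let eU : Fin (Fintype.card U) ≃ U := (Fintype.equivFin U).symm
  let eV : Fin (Fintype.card (Uᶜ : Set (Fin n))) ≃ (Uᶜ : Set (Fin n)) :=
    (Fintype.equivFin (Uᶜ : Set (Fin n))).symm
  have hsum : Fintype.card U + Fintype.card (Uᶜ : Set (Fin n)) = n := by
    have := Fintype.card_congr (Equiv.Set.sumCompl U)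
    rw [Fintype.card_sum, Fintype.card_fin] at this
    exact this
  have h1 : 0 < Fintype.card U := by
    obtain ⟨x, hx⟩ := hU
    exact Fintype.card_pos_iff.mpr ⟨⟨x, hx⟩⟩
  have h2 : 0 < Fintype.card (Uᶜ : Set (Fin n)) := by
    obtain ⟨x, hx⟩ := hUc
    exact Fintype.card_pos_iff.mpr ⟨⟨x, hx⟩⟩
  refine ⟨Fintype.card U, Fintype.card (Uᶜ : Set (Fin n)),
    (Equiv.sumCongr eU eV).trans (Equiv.Set.sumCompl U), h1, h2, by omega, by omega,
    fun i => ?_, fun j => ?_⟩
  · exact (eU i).2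
  · exact (eV j).2

end Pool.Agent.H894R2.EA
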